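import Pool.Agent.V11147.Dens

namespace Pool.Agent.Results.MP_cadfc1_lc.EqualPair

open Pool.Agent.V11147.Dens

theorem result : ∃ ρ τ : ℝ, (0 < ρ ∧ ρ < 1) ∧ (0 < τ ∧ τ < 1) ∧ τ ≠ ρ ∧ τ ≠ 1 - ρ ∧
    ∀ κ : Cardinal.{0}, Cardinal.aleph0 ≤ κ → (DdLe ρ κ ↔ DdLe τ κ) :=
  exists_equal

end Pool.Agent.Results.MP_cadfc1_lc.EqualPair
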