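import Pool.Agent.V11147.Dens

namespace Pool.Agent.Results.MP_cadfc1_lc.Mixing

open Pool.Agent.V11147.Dens

theorem result (κ : Cardinal.{0}) (hκ : Cardinal.aleph0 ≤ κ) :
    (∀ x y z : ℝ, DdLe x κ → (DdLe y κ ∨ y = 0 ∨ y = 1) → (DdLe z κ ∨ z = 0 ∨ z = 1) →
      0 < x * y + (1 - x) * z → x * y + (1 - x) * z < 1 → DdLe (x * y + (1 - x) * z) κ) ∧
    (DdLe (1 / 2) κ → ∀ n k : ℕ, 0 < k → k < 2 ^ n → DdLe ((k : ℝ) / 2 ^ n) κ) :=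
  ⟨fun _ _ _ hx hy hz h0 h1 => mix_closed hκ hx hy hz h0 h1, fun h => dyadic hκ h⟩

end Pool.Agent.Results.MP_cadfc1_lc.Mixing
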